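import Pool.Agent.Helper94.Sand.Upper
import Pool.Agent.Helper94.Sand.Lower

open MeasureTheory ProbabilityTheory Filter Topology
open scoped NNReal

namespace Pool.Agent.Results.MP_40d30a_pr.CriticalDensity

/-- `height d A t v` is the number of grains at the vertex `v` of `ℤ^d` at time `t`, for the
abelian sandpile with parallel updates started from `A`: every vertex that held at least `2d`
grains loses `2d` grains and gives one grain to each of its `2d` nearest neighbours. -/
def height (d : ℕ) (A : (Fin d → ℤ) → ℤ) : ℕ → (Fin d → ℤ) → ℤ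
  | 0, v => A v
  | t + 1, v =>
      height d A t v - (if 2 * (d : ℤ) ≤ height d A t v then 2 * (d : ℤ) else 0) +
        ∑ i : Fin d,
          ((if 2 * (d : ℤ) ≤ height d A t (v + Pi.single i 1) then (1 : ℤ) else 0) +
            (if 2 * (d : ℤ) ≤ height d A t (v - Pi.single i 1) then (1 : ℤ) else 0))

/-- Every vertex topples infinitely often (`v` topples at time `t + 1` exactly when it holds at
least `2d` grains at time `t`). -/
def Percolates (d : ℕ) (A : (Fin d → ℤ) → ℤ) : Prop :=
  ∀ (v : Fin d → ℤ) (T : ℕ), ∃ t, T ≤ t ∧ 2 * (d : ℤ) ≤ height d A t v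

/-- The law under which the `A v`, `v` in `ℤ^d`, are i.i.d. Poisson with mean `l`. -/
noncomputable def poissonField (d : ℕ) (l : ℝ≥0) : Measure ((Fin d → ℤ) → ℕ) :=
  Measure.infinitePi (fun _ : Fin d → ℤ => poissonMeasure l)

/-- The critical density: the infimum of the means `l` for which the i.i.d. Poisson sandpile
percolates with probability one. -/
noncomputable def criticalDensity (d : ℕ) : ℝ :=
  sInf {x : ℝ | ∃ l : ℝ≥0, (l : ℝ) = x ∧
    poissonField d l {A | Percolates d (fun v => (A v : ℤ))} = 1}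

theorem height_eq (d : ℕ) (A : (Fin d → ℤ) → ℤ) (t : ℕ) :
    height d A t = Helper94.Sand.height A t := by
  induction t with
  | zero => rfl
  | succ t ih =>
    funext v
    simp only [height, Helper94.Sand.height, Helper94.Sand.step, ih, Helper94.Sand.ee]
    rfl

theorem percolates_iff (d : ℕ) (A : (Fin d → ℤ) → ℤ) :
    Percolates d A ↔ Helper94.Sand.Percolates A := by
  unfold Percolates Helper94.Sand.Percolates
  simp only [height_eq]

theorem mem_of_ae (d : ℕ) (l : ℝ≥0)
    (h : ∀ᵐ A ∂(Helper94.Sand.muP d (poissonMeasure l)),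
      Helper94.Sand.Percolates (fun v => (A v : ℤ))) :
    poissonField d l {A | Percolates d (fun v => (A v : ℤ))} = 1 := by
  have h1 : poissonField d l {A | Percolates d (fun v => (A v : ℤ))}ᶜ = 0 := by
    rw [ae_iff] at h
    have : {A : (Fin d → ℤ) → ℕ | Percolates d (fun v => (A v : ℤ))}ᶜ =
        {A : (Fin d → ℤ) → ℕ | ¬ Helper94.Sand.Percolates (fun v => (A v : ℤ))} := by
      ext A
      exact not_congr (percolates_iff d _)
    rw [this]
    exact h
  have : IsProbabilityMeasure (poissonField d l) := by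
    unfold poissonField
    infer_instance
  apply le_antisymm prob_le_one
  have h2 := measure_univ_le_add_compl (μ := poissonField d l)
    {A : (Fin d → ℤ) → ℕ | Percolates d (fun v => (A v : ℤ))}
  rw [h1, add_zero, measure_univ] at h2
  exact h2

theorem lower (d : ℕ) (hd : 1 ≤ d) (l : ℝ≥0)
    (h : poissonField d l {A | Percolates d (fun v => (A v : ℤ))} = 1) : (d : ℝ) ≤ l := by
  apply Helper94.Sand.le_of_percolates d hd l
  rw [← h]
  unfold poissonField
  congr 1
  ext A
  exact (percolates_iff d _).symm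

theorem bounds (ε : ℝ) (hε : 0 < ε) (hε1 : ε ≤ 1) :
    ∀ᶠ d : ℕ in atTop, 1 ≤ criticalDensity d / d ∧ criticalDensity d / d ≤ 1 + ε := by
  filter_upwards [Helper94.Sand.percolates_ae ε hε hε1, eventually_ge_atTop 1] with d h hd
  have hd0 : (0 : ℝ) < d := by exact_mod_cast hd
  have hnn : 0 ≤ (1 + ε) * (d : ℝ) := by positivity
  have hmem : (1 + ε) * (d : ℝ) ∈ {x : ℝ | ∃ l : ℝ≥0, (l : ℝ) = x ∧
      poissonField d l {A | Percolates d (fun v => (A v : ℤ))} = 1} :=
    ⟨⟨(1 + ε) * (d : ℝ), hnn⟩, rfl, mem_of_ae d _ (h ⟨(1 + ε) * (d : ℝ), hnn⟩ rfl)⟩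
  have hlow : ∀ x ∈ {x : ℝ | ∃ l : ℝ≥0, (l : ℝ) = x ∧
      poissonField d l {A | Percolates d (fun v => (A v : ℤ))} = 1}, (d : ℝ) ≤ x := by
    rintro x ⟨l, rfl, hl⟩
    exact lower d hd l hl
  constructor
  · rw [le_div_iff₀ hd0, one_mul]
    exact le_csInf ⟨_, hmem⟩ hlow
  · rw [div_le_iff₀ hd0]
    exact csInf_le ⟨(d : ℝ), hlow⟩ hmem

/-- The critical Poisson density of the abelian sandpile on `ℤ^d`, divided by `d`, tends to one. -/
theorem result : Tendsto (fun d : ℕ => criticalDensity d / d) atTop (𝓝 1) := by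
  rw [tendsto_order]
  constructor
  · intro a ha
    filter_upwards [bounds 1 one_pos le_rfl] with d hd
    exact lt_of_lt_of_le ha hd.1
  · intro b hb
    have hpos : 0 < min 1 ((b - 1) / 2) := lt_min one_pos (by linarith)
    filter_upwards [bounds (min 1 ((b - 1) / 2)) hpos (min_le_left _ _)] with d hd
    have h1 : min 1 ((b - 1) / 2) ≤ (b - 1) / 2 := min_le_right _ _
    linarith [hd.2]

end Pool.Agent.Results.MP_40d30a_pr.CriticalDensity
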